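import Mathlib

open Filter

namespace Pool.Agent.Results.MP_f00063_lc.Middle

def uadd (F G : Ultrafilter ℕ+) : Ultrafilter ℕ+ := F.bind fun n => G.map (n + ·)

def sc (a : ℕ+) (U : Ultrafilter ℕ+) : Ultrafilter ℕ+ := U.map (a * ·)

theorem result : ∃ (U : Ultrafilter ℕ+) (a b b' c : ℕ+), b ≠ b' ∧
    uadd (uadd (sc a U) (sc b U)) (sc c U) = uadd (uadd (sc a U) (sc b' U)) (sc c U) := by
  letI := @Ultrafilter.addSemigroup ℕ+ _
  obtain ⟨U, hU⟩ := exists_idempotent_of_compact_t2_of_continuous_add_left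
    (@Ultrafilter.continuous_add_left ℕ+ _)
  have h : ∀ p : ℕ+ → Prop, (∀ᶠ x in (U : Filter ℕ+), ∀ᶠ y in (U : Filter ℕ+), p (x + y)) ↔
      ∀ᶠ x in (U : Filter ℕ+), p x := fun p => by
    rw [← Ultrafilter.eventually_add, hU]
  refine ⟨U, 1, 1, 2, 2, by decide, ?_⟩
  ext A
  change (∀ᶠ x in (U : Filter ℕ+), ∀ᶠ y in (U : Filter ℕ+), ∀ᶠ z in (U : Filter ℕ+),
      1 * x + 1 * y + 2 * z ∈ A) ↔ ∀ᶠ x in (U : Filter ℕ+), ∀ᶠ y in (U : Filter ℕ+),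
      ∀ᶠ z in (U : Filter ℕ+), 1 * x + 2 * y + 2 * z ∈ A
  simp only [one_mul]
  rw [h fun x => ∀ᶠ z in (U : Filter ℕ+), x + 2 * z ∈ A]
  refine eventually_congr (Eventually.of_forall fun x => ?_)
  rw [← h fun z => x + 2 * z ∈ A]
  simp only [mul_add, add_assoc]

end Pool.Agent.Results.MP_f00063_lc.Middle
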